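import Pool.Agent.H62.LP.Final

/-!
# Random walk loop percolation in dimension three: `α_# = α_c`

The annulus-crossing threshold and the percolation threshold of the random walk loop percolation on
`ℤ ^ 3` are equal. The second part is a finite size criterion: if the loops of intensity `α` cross the
annulus of radii `n`, `β n` with probability at least `1 - η` for one `n`, then there is percolation
for the intensity `α + ε`.
-/

set_option autoImplicit false

open MeasureTheory Filter
open scoped ENNReal NNReal

namespace Pool.Agent.Results.MP_521601_pr.DimensionThree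

open Pool.Agent.H62.LP

theorem result :
    alphaSharp 3 = alphaC 3 ∧
    ∀ α ε : ℝ≥0, 0 < ε → ∃ (β : ℕ) (η : ℝ), 2 ≤ β ∧ 0 < η ∧ ∀ n : ℕ, 1 ≤ n →
      ENNReal.ofReal (1 - η) ≤ soup 3 α {N | Cross n (β * n) N} →
        0 < soup 3 (α + ε) {N | (cluster N 0).Infinite} :=
  ⟨t_FIN, t_FSC⟩

end Pool.Agent.Results.MP_521601_pr.DimensionThree
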